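import Pool.Agent.Results.MP_9b3446_nt.EveryGap

open Polynomial

namespace Pool.Agent.Results.MP_9b3446_nt.UncountableEveryInterval

open Pool.Agent.H322R2
open Pool.Agent.Results.MP_9b3446_nt.EveryGap (mahlerExp koksmaExp mahler_eq koksma_eq)

theorem k_seq471 (k : ℕ) (hk : 1 ≤ k) (κ : ℕ → ℕ) (hκ : ∀ j, 1 ≤ κ j) (hκk : ∀ j, κ j ≤ k)
    (u : ℕ → ℝ) (hu : ∀ j, 1 ≤ u j) (z : ℕ → ℝ)
    (A r : ℝ) (hA : 1 / 2 ≤ A) (hr : 0 < r) (hAr : A + r ≤ 1) :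
    ∃ (s : ℕ → KSt) (ξ : ℝ), (A < ξ ∧ ξ ≤ A + r) ∧ ∀ j, KV k (κ j) (u j) (s j) ∧
      (s j).x + kr k (u j) (s j).m / 2 ≤ ξ ∧ ξ ≤ (s j).x + kr k (u j) (s j).m ∧ ξ ≠ z j ∧
      j < (s j).m ∧ (3 : ℝ) ^ (s (j + 1)).m ≤ 288 * 2 ^ k * k * ((3 : ℝ) ^ (s j).m) ^ (u j) := by
  obtain ⟨s₀, hs₀, hb1, hb2, -⟩ := k_step0 k hk (κ 0) (hκ 0) (hκk 0) (u 0) (hu 0) 0 A r
    hA hr hAr
  obtain ⟨s, hs⟩ := k_dep (fun j s => KV k (κ j) (u j) s ∧ (j = 0 → s = s₀))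
    (fun j s s' => KRel k (u j) (u (j + 1)) (z j) s s') s₀ ⟨hs₀, fun _ => rfl⟩
    (fun j s hV => by
      obtain ⟨s', h1, h2⟩ := k_step k hk (κ j) (u j) (hu j) s hV.1 (κ (j + 1)) (hκ _) (hκk _)
        (u (j + 1)) (hu _) (z j)
      exact ⟨s', ⟨h1, fun h => absurd h (Nat.succ_ne_zero j)⟩, h2⟩)
  have hs00 : s 0 = s₀ := (hs 0).1.2 rfl
  have hrpos : ∀ j, 0 < kr k (u j) (s j).m := fun j => kr_pos k hk _ _
  have hmono : Monotone (fun j => (s j).x) := by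
    apply monotone_nat_of_le_succ
    intro j
    have := (hs j).2.1
    have := hrpos j
    linarith
  have hanti : Antitone (fun j => (s j).x + kr k (u j) (s j).m) := by
    apply antitone_nat_of_succ_le
    intro j
    exact (hs j).2.2.1
  have hcross : ∀ i j, (s i).x ≤ (s j).x + kr k (u j) (s j).m := by
    intro i j
    rcases le_total i j with h | h
    · have h1 : (s i).x ≤ (s j).x := hmono h
      have := hrpos j
      linarith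
    · have h1 : (s i).x + kr k (u i) (s i).m ≤ (s j).x + kr k (u j) (s j).m := hanti h
      have := hrpos i
      linarith
  have hbdd : BddAbove (Set.range (fun j => (s j).x)) := by
    refine ⟨(s 0).x + kr k (u 0) (s 0).m, ?_⟩
    rintro _ ⟨i, rfl⟩
    exact hcross i 0
  have hle : ∀ j, (s j).x ≤ ⨆ j, (s j).x := fun j => le_ciSup hbdd j
  have hge : ∀ j, (⨆ j, (s j).x) ≤ (s j).x + kr k (u j) (s j).m :=
    fun j => ciSup_le (fun i => hcross i j)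
  have hm : ∀ j, j < (s j).m := by
    intro j
    induction j with
    | zero => exact (hs 0).1.1.2.2.2.2
    | succ j ih =>
      have := (hs j).2.2.2.2.1
      omega
  refine ⟨s, ⨆ j, (s j).x, ⟨?_, ?_⟩,
    fun j => ⟨(hs j).1.1, ?_, hge j, ?_, hm j, (hs j).2.2.2.2.2⟩⟩
  · have h1 := hle 0
    rw [hs00] at h1
    linarith
  · have h1 := hge 0
    rw [hs00] at h1
    linarith
  · exact (hs j).2.1.trans (hle (j + 1))
  · rcases (hs j).2.2.2.1 with h | h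
    · have := hle (j + 1)
      exact (lt_of_lt_of_le h this).ne'
    · have := hge (j + 1)
      exact (lt_of_le_of_lt this h).ne

theorem k_main471 (C : Set ℝ) (hC : C.Countable) (A r : ℝ)
    (hA : 1 / 2 ≤ A) (hr0 : 0 < r) (hAr : A + r ≤ 1) (n k : ℕ) (hn : 1 ≤ n) (hk : 2 ≤ k) (W V : ℝ)
    (hW : 2 * (k : ℝ) * ((k * n : ℕ) : ℝ) + k ≤ W) (hWV : W ≤ V)
    (hVW : V + 1 ≤ k * (W + 1)) :
    ∃ ξ : ℝ, (ξ ∉ C ∧ A < ξ ∧ ξ ≤ A + r) ∧ Transcendental ℤ ξ ∧ 0 ≤ ξ ∧ ξ ≤ 1 ∧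
      (∃ c : ℝ, 0 < c ∧ ∀ P : ℤ[X], P ≠ 0 → P.natDegree ≤ k * n → ∀ h : ℝ,
        (∀ i, |(P.coeff i : ℝ)| ≤ h) → c * h ^ (-V) ≤ |aeval ξ P|) ∧
      (∃ c : ℝ, 0 < c ∧ ∀ P : ℤ[X], P ≠ 0 → P.natDegree ≤ n → ∀ h : ℝ,
        (∀ i, |(P.coeff i : ℝ)| ≤ h) → c * h ^ (-W) ≤ |aeval (ξ ^ k) P|) ∧
      (∀ M : ℕ, ∃ m p : ℕ, M < m ∧ p % 12 = 2 ∧ p ≤ 3 ^ m ∧ 0 < ξ - p / 3 ^ m ∧
        ξ - p / 3 ^ m ≤ ((3 : ℝ) ^ m) ^ (-V - 1)) ∧
      (∀ M : ℕ, ∃ m p : ℕ, M < m ∧ p % 12 = 2 ∧ p ≤ 3 ^ m ∧ 0 < ξ ^ k - p / 3 ^ m ∧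
        ξ ^ k - p / 3 ^ m ≤ ((3 : ℝ) ^ m) ^ (-W - 1)) := by
  classical
  have hk' : (1 : ℝ) ≤ k := by exact_mod_cast (by omega : 1 ≤ k)
  have hN0 : (0 : ℝ) ≤ ((k * n : ℕ) : ℝ) := Nat.cast_nonneg _
  have hW0 : 0 ≤ W := by nlinarith
  obtain ⟨z, hz⟩ := ((Algebraic.countable ℤ ℝ).union hC).exists_eq_range
    ⟨0, Or.inl isAlgebraic_zero⟩
  set κ : ℕ → ℕ := fun j => if Even j then k else 1 with hκ
  set σ : ℕ → ℕ := fun j => if Even j then 1 else k with hσ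
  set u : ℕ → ℝ := fun j => if Even j then W + 1 else V + 1 with hu
  have hκ1 : ∀ j, 1 ≤ κ j := by
    intro j; simp only [hκ]; split_ifs <;> omega
  have hκk : ∀ j, κ j ≤ k := by
    intro j; simp only [hκ]; split_ifs <;> omega
  have hκσ : ∀ j, κ j * σ j = k := by
    intro j; simp only [hκ, hσ]; split_ifs <;> ring
  have hu1 : ∀ j, W + 1 ≤ u j := by
    intro j; simp only [hu]; split_ifs <;> linarith
  have hu2 : ∀ j, u j ≤ V + 1 := by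
    intro j; simp only [hu]; split_ifs <;> linarith
  have hu3 : ∀ j, u j ≤ σ j * (W + 1) := by
    intro j; simp only [hu, hσ]; split_ifs
    · push_cast; linarith
    · exact hVW
  have hu4 : ∀ j, 1 ≤ u j := fun j => by have := hu1 j; linarith
  obtain ⟨s, ξ, hξ, hs⟩ := k_seq471 k (by omega) κ hκ1 hκk u hu4 z A r hA hr0 hAr
  have hV : ∀ j, KV k (κ j) (u j) (s j) := fun j => (hs j).1
  have hl : ∀ j, (s j).x + kr k (u j) (s j).m / 2 ≤ ξ := fun j => (hs j).2.1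
  have hr : ∀ j, ξ ≤ (s j).x + kr k (u j) (s j).m := fun j => (hs j).2.2.1
  have hne : ∀ j, ξ ≠ z j := fun j => (hs j).2.2.2.1
  have hm : ∀ j, j < (s j).m := fun j => (hs j).2.2.2.2.1
  have hnx := fun j => (hs j).2.2.2.2.2
  have S1 := kSysXi n k hn hk W V hW hWV κ u hκ1 hκk hu1 hu2 s ξ hV hl hr hm hnx
  have S2 := kSysEta n k hn hk W hW κ σ u hκσ hu1 hu3 s ξ hV hl hr hm hnx
  have hrpos : ∀ j, 0 < kr k (u j) (s j).m := fun j => kr_pos k (by omega) _ _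
  refine ⟨ξ, ⟨?_, hξ⟩, ?_, S1.hx0, S1.hx1, S1.lower (k * n) le_rfl, S2.lower n le_rfl, ?_, ?_⟩
  · intro hξC
    have : ξ ∈ {x : ℝ | IsAlgebraic ℤ x} ∪ C := Or.inr hξC
    rw [hz] at this
    obtain ⟨j, hj⟩ := this
    exact hne j hj.symm
  · intro halg
    have : ξ ∈ {x : ℝ | IsAlgebraic ℤ x} ∪ C := Or.inl halg
    rw [hz] at this
    obtain ⟨j, hj⟩ := this
    exact hne j hj.symm
  · intro M
    set j := 2 * M + 1 with hj
    have hodd : ¬ Even j := by rw [hj]; simp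
    have h3 : (3 : ℝ) ^ (s j).m * (s j).x ^ κ j = (s j).p := (hV j).2.2.1
    have hκj : κ j = 1 := by simp only [hκ]; rw [if_neg hodd]
    have huj : u j = V + 1 := by simp only [hu]; rw [if_neg hodd]
    rw [hκj, pow_one] at h3
    have hx : (s j).x = (s j).p / 3 ^ (s j).m := by
      rw [eq_div_iff (by positivity)]; linarith
    refine ⟨(s j).m, (s j).p, by have := hm j; omega, (hV j).2.2.2.1,
      k_p_le k (κ j) (by omega) (u j) (s j) (hV j), ?_, ?_⟩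
    · rw [← hx]
      have h1 := hl j
      have h2 := hrpos j
      linarith
    · rw [← hx]
      have h1 := hr j
      have h4 := S1.hclose
      have h5 : kr k (u j) (s j).m ≤ ((3 : ℝ) ^ (s j).m) ^ (-V - 1) := by
        unfold kr
        rw [huj]
        have h5 : 1 / (k : ℝ) ≤ 1 := by
          rw [div_le_one (by linarith)]; exact hk'
        calc 1 / (k : ℝ) * ((3 : ℝ) ^ (s j).m) ^ (-(V + 1))
            ≤ 1 * ((3 : ℝ) ^ (s j).m) ^ (-(V + 1)) :=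
              mul_le_mul_of_nonneg_right h5 (by positivity)
          _ = _ := by rw [one_mul]; congr 1; ring
      linarith
  · intro M
    set j := 2 * M + 2 with hj
    have heven : Even j := by rw [hj]; exact ⟨M + 1, by ring⟩
    have h3 : (3 : ℝ) ^ (s j).m * (s j).x ^ κ j = (s j).p := (hV j).2.2.1
    have hκj : κ j = k := by simp only [hκ]; rw [if_pos heven]
    have huj : u j = W + 1 := by simp only [hu]; rw [if_pos heven]
    rw [hκj] at h3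
    have hx : (s j).x ^ k = (s j).p / 3 ^ (s j).m := by
      rw [eq_div_iff (by positivity)]; linarith
    have h0 := (hV j).1
    have h1 := hl j
    have h2 := hrpos j
    have h4 := hr j
    refine ⟨(s j).m, (s j).p, by have := hm j; omega, (hV j).2.2.2.1,
      k_p_le k (κ j) (by omega) (u j) (s j) (hV j), ?_, ?_⟩
    · rw [← hx]
      have h5 := k_pow_lower k k (by omega) le_rfl (s j).x ξ h0 (by linarith)
      have h6 : 0 < (ξ - (s j).x) * (1 / 2) ^ k := by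
        apply mul_pos (by linarith) (by positivity)
      linarith
    · rw [← hx]
      have hξ1 := (hr 0).trans (hV 0).2.1
      have h5 := k_pow_diff ξ (s j).x (by rw [abs_of_nonneg (by linarith)]; exact hξ1)
        (by rw [abs_of_nonneg (by linarith)]; linarith) k
      refine (le_abs_self _).trans (h5.trans ?_)
      rw [abs_of_nonneg (by linarith)]
      have h7 : ξ - (s j).x ≤ kr k (u j) (s j).m := by linarith
      refine (mul_le_mul_of_nonneg_left h7 (by linarith)).trans (le_of_eq ?_)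
      unfold kr
      rw [huj, ← mul_assoc, mul_one_div_cancel (by linarith), one_mul]
      congr 1
      ring


theorem main471 (C : Set ℝ) (hC : C.Countable) (A r : ℝ)
    (hA : 1 / 2 ≤ A) (hr0 : 0 < r) (hAr : A + r ≤ 1) (n k : ℕ) (hn : 1 ≤ n) (hk : 2 ≤ k)
    (W V : ℝ) (hW : 2 * (k : ℝ) ^ 2 * n + k ≤ W) (hWV : W ≤ V) (hVW : V + 1 ≤ k * (W + 1)) :
    ∃ ξ : ℝ, (ξ ∉ C ∧ A < ξ ∧ ξ ≤ A + r) ∧ Transcendental ℤ ξ ∧
      mahlerExp n (ξ ^ k) = ENNReal.ofReal W ∧ koksmaExp n (ξ ^ k) = ENNReal.ofReal W ∧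
      mahlerExp (k * n) ξ = ENNReal.ofReal V ∧ koksmaExp (k * n) ξ = ENNReal.ofReal V := by
  obtain ⟨ξ, hξ, htr, h0, h1, hl1, hl2, hg1, hg2⟩ := k_main471 C hC A r hA hr0 hAr n k hn hk W V
    (by push_cast; nlinarith) hWV hVW
  have hW0 : 0 ≤ W := by
    have : 0 ≤ 2 * (k : ℝ) ^ 2 * n + k := by positivity
    linarith
  have hV0 : 0 ≤ V := hW0.trans hWV
  have hkn : 1 ≤ k * n := Nat.mul_pos (by omega) hn
  exact ⟨ξ, hξ, htr, mahler_eq n hn W _ hW0 hl2 hg2,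
    koksma_eq n hn W _ (by positivity) (pow_le_one₀ h0 h1) hW0 hl2 hg2,
    mahler_eq (k * n) hkn V ξ hV0 hl1 hg1, koksma_eq (k * n) hkn V ξ h0 h1 hV0 hl1 hg1⟩

/-- the uncountability statement for one pair `(W, V)` -/
theorem unc471 (n k : ℕ) (hn : 1 ≤ n) (hk : 2 ≤ k)
    (W V : ℝ) (hW : 2 * (k : ℝ) ^ 2 * n + k ≤ W) (hWV : W ≤ V) (hVW : V + 1 ≤ k * (W + 1))
    (a b : ℝ) (ha : 1 / 2 ≤ a) (hab : a < b) (hb : b ≤ 1) :
    ¬ {ξ : ℝ | a < ξ ∧ ξ < b ∧ Transcendental ℤ ξ ∧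
      mahlerExp n (ξ ^ k) = ENNReal.ofReal W ∧ koksmaExp n (ξ ^ k) = ENNReal.ofReal W ∧
      mahlerExp (k * n) ξ = ENNReal.ofReal V ∧
      koksmaExp (k * n) ξ = ENNReal.ofReal V}.Countable := by
  intro hC
  obtain ⟨ξ, ⟨hξC, h1, h2⟩, h3⟩ := main471 _ hC a ((b - a) / 2) ha (by linarith) (by linarith)
    n k hn hk W V hW hWV hVW
  exact hξC ⟨h1, by linarith, h3⟩

/-- For `n ≥ 1`, `k ≥ 2` and every nonempty open interval `(a, b)` inside `[1/2, 1]`: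
(1) for every real `δ ≥ 0`, uncountably many transcendental `ξ ∈ (a, b)` satisfy
`w_{kn}(ξ) = w_n(ξ^k) + δ` and `w_{kn}^*(ξ) = w_n^*(ξ^k) + δ` with all four exponents finite;
(2) for all reals `W ≥ 2k²n + k` and `W ≤ V ≤ k(W+1) - 1`, uncountably many transcendental
`ξ ∈ (a, b)` have `w_n(ξ^k) = w_n^*(ξ^k) = W` and `w_{kn}(ξ) = w_{kn}^*(ξ) = V`. -/
theorem result : ∀ n k : ℕ, 1 ≤ n → 2 ≤ k → ∀ a b : ℝ, 1 / 2 ≤ a → a < b → b ≤ 1 →
    (∀ δ : ℝ, 0 ≤ δ → ¬ {ξ : ℝ | a < ξ ∧ ξ < b ∧ Transcendental ℤ ξ ∧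
      mahlerExp (k * n) ξ = mahlerExp n (ξ ^ k) + ENNReal.ofReal δ ∧
      koksmaExp (k * n) ξ = koksmaExp n (ξ ^ k) + ENNReal.ofReal δ ∧
      mahlerExp (k * n) ξ ≠ ⊤ ∧ mahlerExp n (ξ ^ k) ≠ ⊤ ∧
      koksmaExp (k * n) ξ ≠ ⊤ ∧ koksmaExp n (ξ ^ k) ≠ ⊤}.Countable) ∧
    (∀ W V : ℝ, 2 * (k : ℝ) ^ 2 * n + k ≤ W → W ≤ V → V + 1 ≤ k * (W + 1) →
      ¬ {ξ : ℝ | a < ξ ∧ ξ < b ∧ Transcendental ℤ ξ ∧
        mahlerExp n (ξ ^ k) = ENNReal.ofReal W ∧ koksmaExp n (ξ ^ k) = ENNReal.ofReal W ∧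
        mahlerExp (k * n) ξ = ENNReal.ofReal V ∧
        koksmaExp (k * n) ξ = ENNReal.ofReal V}.Countable) := by
  intro n k hn hk a b ha hab hb
  refine ⟨fun δ hδ hC => ?_, fun W V hW hWV hVW =>
    unc471 n k hn hk W V hW hWV hVW a b ha hab hb⟩
  have hk2 : (2 : ℝ) ≤ k := by exact_mod_cast hk
  have hpos : (0 : ℝ) ≤ 2 * (k : ℝ) ^ 2 * n + k := by positivity
  have hW0 : (0 : ℝ) ≤ 2 * (k : ℝ) ^ 2 * n + k + δ := by linarith
  refine unc471 n k hn hk (2 * (k : ℝ) ^ 2 * n + k + δ) (2 * (k : ℝ) ^ 2 * n + k + δ + δ)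
    (by linarith) (by linarith) (by nlinarith) a b ha hab hb (hC.mono ?_)
  rintro ξ ⟨h1, h2, h3, h4, h5, h6, h7⟩
  refine ⟨h1, h2, h3, ?_, ?_, ?_, ?_, ?_, ?_⟩
  · rw [h4, h6, ENNReal.ofReal_add hW0 hδ]
  · rw [h5, h7, ENNReal.ofReal_add hW0 hδ]
  · rw [h6]; exact ENNReal.ofReal_ne_top
  · rw [h4]; exact ENNReal.ofReal_ne_top
  · rw [h7]; exact ENNReal.ofReal_ne_top
  · rw [h5]; exact ENNReal.ofReal_ne_top

end Pool.Agent.Results.MP_9b3446_nt.UncountableEveryInterval
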